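import Mathlib

set_option autoImplicit false

namespace Pool.Agent.Results.MP_314109_co.Cex

/-- the set distance -/
noncomputable def d {X : Type} [DecidableEq X] (A B : Finset X) : ℝ :=
  √(((A \ B).card : ℝ) ^ 2 + ((B \ A).card : ℝ) ^ 2)

def A : Fin 4 → Finset (Fin 5) := ![{0, 3}, {0, 2, 3}, {1, 4}, {1, 2, 4}]
def B : Fin 4 → Finset (Fin 5) := ![{0, 1}, {0, 1, 2}, {3, 4}, {2, 3, 4}]
def T : Fin 4 → Fin 4 → ℕ := ![![0, 1, 8, 13], ![1, 0, 13, 8], ![8, 13, 0, 1], ![13, 8, 1, 0]]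
def U : Fin 4 → Fin 4 → ℕ := ![![2, 5, 2, 5], ![5, 2, 5, 2], ![2, 5, 2, 5], ![5, 2, 5, 2]]

theorem e (S R : Finset (Fin 5)) (n : ℕ) (h : (S \ R).card ^ 2 + (R \ S).card ^ 2 = n) :
    d S R = √n := by
  rw [d, ← h]; push_cast; rfl

theorem result : ∃ A B : Fin 4 → Finset (Fin 5), Function.Injective A ∧ Function.Injective B ∧
    ∑ i, ∑ j, d (A i) (B j) <
      ∑ i, ∑ j with i < j, d (A i) (A j) + ∑ i, ∑ j with i < j, d (B i) (B j) := by
  refine ⟨A, B, by decide, by decide, ?_⟩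
  have h1 : ∀ i j, d (A i) (A j) = √(T i j) := fun i j => e _ _ _ (by revert i j; decide)
  have h2 : ∀ i j, d (B i) (B j) = √(T i j) := fun i j => e _ _ _ (by revert i j; decide)
  have h3 : ∀ i j, d (A i) (B j) = √(U i j) := fun i j => e _ _ _ (by revert i j; decide)
  have a : √2 < 1.4143 := Real.sqrt_lt' (by norm_num) |>.2 (by norm_num)
  have b : √5 < 2.2361 := Real.sqrt_lt' (by norm_num) |>.2 (by norm_num)
  have c : 2.828 < √8 := Real.lt_sqrt (by norm_num) |>.2 (by norm_num)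
  have c' : 3.605 < √13 := Real.lt_sqrt (by norm_num) |>.2 (by norm_num)
  simp only [h1, h2, h3, Finset.sum_filter, Fin.sum_univ_four]
  simp [T, U]
  linarith

end Pool.Agent.Results.MP_314109_co.Cex
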